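import Pool.Agent.helper14.SCO.Spec

set_option autoImplicit false

namespace Pool.Agent.SCO

open Pool.Agent.Scheepers Cardinal

theorem SET_count (hCH : Cardinal.continuum.{0} = Cardinal.aleph.{0} 1) {κ : Type}
    (h : #κ < 𝔠) : Countable κ := by
  have h1 : #κ < Cardinal.aleph.{0} 1 := hCH ▸ h
  exact Cardinal.mk_le_aleph0_iff.1 (Cardinal.lt_aleph_one_iff.1 h1)

theorem SET (h1 : DP2_stmt) (h2 : TCD_stmt) (h3 : OPC_stmt) (h4 : STP_stmt) (h5 : REC_stmt)
    (h6 : OMG_stmt) : SET_stmt := by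
  classical
  intro hCH
  obtain ⟨r, wo, hr⟩ := Cardinal.exists_ord_eq Tsk
  have hsmall : ∀ i : Tsk, #{j // r j i} < 𝔠 := by
    intro i
    have h7 := Cardinal.card_typein_lt i hr
    rw [Ordinal.card_typein] at h7
    exact lt_of_lt_of_le h7 h2
  have hcount : ∀ i : Tsk, Countable {j // r j i} := fun i => SET_count hCH (hsmall i)
  let W : Tsk → ℕ → ℕ → Set (ℕ → Bool) := fun i n k => dec (i.1 n k)
  let h : Tsk → ℕ → ℕ := fun i => i.2.1
  let U : Tsk → ℕ → ℕ → Set (ℕ → Bool) := fun i n m => opn (i.2.2 n m)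
  have hUo : ∀ i n m, IsOpen (U i n m) := by
    intro i n m
    show IsOpen (⋃ j, dec (i.2.2 n m j))
    exact isOpen_iUnion fun j => (supp_dec _).isOpen
  obtain ⟨G, hG⟩ := h5 Tsk r W h U (fun i G hG => h4 Tsk r W h U (fun i n k => (i.1 n k).1)
    (fun i n k => supp_dec _) hUo i (hcount i) G hG)
  have hKno : ∀ i z, Kno r i (fun j _ => G j) (G i) z → z ∈ D ∨ ∃ j, z = (G j).1 := by
    rintro i z ((hz | ⟨j, _, hz⟩) | hz)
    · exact Or.inl hz
    · exact Or.inr ⟨j, hz⟩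
    · exact Or.inr ⟨i, hz⟩
  refine ⟨D ∪ {z | ∃ i, z = (G i).1}, ⟨?_, Set.subset_union_left, ?_, ?_, ?_⟩⟩
  · rintro z (hz | ⟨i, hz⟩)
    · exact h1 hz
    · rw [hz]
      exact (hG i).2.2.1
  · intro g
    let i : Tsk := (fun _ _ => ⟨0, ∅⟩, g, fun _ _ _ => ⟨0, ∅⟩)
    refine ⟨(G i).1, Or.inr ⟨i, rfl⟩, ?_⟩
    rcases (hG i).2.2.2.2.1 with ⟨z, _, n, hn⟩ | ⟨hinf, _⟩
    · obtain ⟨k, _, hk⟩ := hn 0
      exact absurd hk (fun h => h)
    · exact hinf
  · intro V b hV hconv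
    choose c hc using fun n k => exists_code (hV n k)
    let i : Tsk := (c, fun _ => 0, fun _ _ _ => ⟨0, ∅⟩)
    have hWi : W i = V := by
      funext n k
      exact hc n k
    have hnk : ∀ z ∈ D ∪ {z | ∃ i, z = (G i).1}, ¬ Kills V z := by
      rintro z hz ⟨n, hn⟩
      obtain ⟨k0, hk0⟩ := hconv n z hz
      obtain ⟨k, hk1, hk2⟩ := hn k0
      exact hk0 k hk1 hk2
    have h7 := (hG i).2.2.2.2.1
    rw [hWi] at h7
    rcases h7 with ⟨z, hz, hzk⟩ | ⟨_, κ, hκ1, hκ2⟩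
    · exfalso
      refine hnk z ?_ hzk
      rcases hKno i z hz with hz | ⟨j, hz⟩
      · exact Or.inl hz
      · exact Or.inr ⟨j, hz⟩
    · refine ⟨κ, ?_⟩
      rintro z (hz | ⟨j, hz⟩)
      · exact hκ2 z (Or.inl (Or.inl hz))
      · rcases trichotomous_of r j i with hji | hji | hji
        · exact hκ2 z (Or.inl (Or.inr ⟨j, hji, hz⟩))
        · subst hji
          exact hκ2 z (Or.inr hz)
        · have := (hG j).2.1 i hji
          rw [hz]
          exact hκ1 _ this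
  · intro O hO hfin
    choose c hc using fun n m => h3 (O n m) (hO n m)
    let i : Tsk := (fun _ _ => ⟨0, ∅⟩, fun _ => 0, c)
    have hUi : U i = O := by
      funext n m
      exact hc n m
    have h7 := h6 Tsk r W h U G hG i
    rw [hUi] at h7
    exact ⟨(G i).2.2, h7 hfin⟩

end Pool.Agent.SCO
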